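import Mathlib

set_option autoImplicit false

namespace Pool.Agent.Helper61.Sym

open SimpleGraph Finset

variable {V : Type*}

/-- `NB G n a b c d`: there is a non-backtracking walk in `G` with `n + 1` edges whose first
edge is `a → b` and whose last edge is `c → d`. -/
inductive NB (G : SimpleGraph V) : ℕ → V → V → V → V → Prop
  | base {a b : V} (h : G.Adj a b) : NB G 0 a b a b
  | step {n : ℕ} {a b c d e : V} (h : NB G n a b c d) (h' : G.Adj d e) (hne : e ≠ c) :
      NB G (n + 1) a b d e

variable {G : SimpleGraph V}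

theorem NB.trans {n m : ℕ} {a b c d e f g : V} (h₁ : NB G n a b c d) (h₂ : NB G m d e f g)
    (hne : e ≠ c) : NB G (n + m + 1) a b f g := by
  induction h₂ with
  | base h => exact NB.step h₁ h hne
  | step h h' hne' ih => exact NB.step (ih h₁ hne) h' hne'

theorem NB.symm {n : ℕ} {a b c d : V} (h : NB G n a b c d) : NB G n d c b a := by
  induction h with
  | base h => exact NB.base h.symm
  | @step n a b c d e h h' hne ih =>
    have h1 : NB G 0 e d e d := NB.base h'.symm
    have h2 := NB.trans h1 ih (Ne.symm hne)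
    simpa [Nat.add_comm, Nat.add_left_comm] using h2

theorem NB.adj_last {n : ℕ} {a b c d : V} (h : NB G n a b c d) : G.Adj c d := by
  cases h with
  | base h => exact h
  | step h h' hne => exact h'

theorem NB.adj_first {n : ℕ} {a b c d : V} (h : NB G n a b c d) : G.Adj a b := by
  induction h with
  | base h => exact h
  | step h h' hne ih => exact ih

section Action

variable {Γ : Type*} [Group Γ] [MulAction Γ V]

theorem NB.smul (haut : ∀ (g : Γ) (v w : V), G.Adj v w → G.Adj (g • v) (g • w))
    (g : Γ) {n : ℕ} {a b c d : V} (h : NB G n a b c d) :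
    NB G n (g • a) (g • b) (g • c) (g • d) := by
  induction h with
  | base h => exact NB.base (haut g _ _ h)
  | step h h' hne ih =>
    exact NB.step ih (haut g _ _ h') (fun hh => hne (MulAction.injective g hh))

/-- Block lemma. -/
theorem block (haut : ∀ (g : Γ) (v w : V), G.Adj v w → G.Adj (g • v) (g • w))
    {z u u' : V} (g : Γ) (hst : g • z = z → g • u' ≠ u) :
    ∀ {s : ℕ} {p x p' x' : V}, NB G s z u p x → NB G s z u' p' x' → x = g • x' →
      ∃ l, l ≤ 2 * s + 1 ∧ NB G l z u (g • u') (g • z) := by
  intro s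
  induction s with
  | zero =>
    intro p x p' x' h h' hx
    cases h with
    | base h =>
      cases h' with
      | base h' =>
        refine ⟨1, by omega, ?_⟩
        have h1 : G.Adj u (g • z) := by
          rw [hx]; exact (haut g _ _ h').symm
        rw [← hx]
        refine NB.step (NB.base h) h1 ?_
        intro hz
        exact hst hz hx.symm
  | succ s ih =>
    intro p x p' x' h h' hx
    cases h with
    | @step _ _ _ c d _ h hd hne =>
      cases h' with
      | @step _ _ _ c' d' _ h' hd' hne' =>
        by_cases hp : p = g • p'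
        · obtain ⟨l, hl, hnb⟩ := ih h h' hp
          exact ⟨l, by omega, hnb⟩
        · have h1 : NB G (s + 1) z u p x := NB.step h hd hne
          have h2 : NB G (s + 1) z u' p' x' := NB.step h' hd' hne'
          have h3 := (NB.smul haut g h2).symm
          rw [← hx] at h3
          have h4 := NB.trans h1 h3 (Ne.symm hp)
          exact ⟨_, by omega, h4⟩

/-- Word lemma. -/
theorem word (haut : ∀ (g : Γ) (v w : V), G.Adj v w → G.Adj (g • v) (g • w))
    {q : ℕ} (u : Fin q → V) (hu : Function.Injective u) (a : Fin q → Γ) (z : V) (s : ℕ)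
    (hblock : ∀ i j : Fin q, i ≠ j →
      ∃ l, l ≤ 2 * s + 1 ∧ NB G l z (u i) ((a i * (a j)⁻¹) • u j) ((a i * (a j)⁻¹) • z)) :
    ∀ (w : List (Fin q × Fin q)) (p : Fin q × Fin q),
      (∀ p' ∈ p :: w, p'.1 ≠ p'.2) → List.IsChain (fun p p' => p.2 ≠ p'.1) (p :: w) →
      ∃ l t, l + 1 ≤ (2 * s + 2) * (w.length + 1) ∧
        NB G l z (u p.1) t (((p :: w).map (fun p => a p.1 * (a p.2)⁻¹)).prod • z) := by
  intro w
  induction w with
  | nil =>
    intro p hp _
    obtain ⟨l, hl, h⟩ := hblock p.1 p.2 (hp p (by simp))
    refine ⟨l, (a p.1 * (a p.2)⁻¹) • u p.2, by simp; omega, ?_⟩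
    simpa using h
  | cons p' w ih =>
    intro p hp hc
    obtain ⟨l, hl, h⟩ := hblock p.1 p.2 (hp p (by simp))
    obtain ⟨l', t, hl', h'⟩ := ih p' (fun x hx => hp x (List.mem_cons_of_mem _ hx))
      (List.IsChain.of_cons hc)
    have hne : p.2 ≠ p'.1 := by
      have := hc
      rw [List.isChain_cons_cons] at this
      exact this.1
    have h2 := NB.smul haut (a p.1 * (a p.2)⁻¹) h'
    have h3 := NB.trans h h2 (by
      intro hh
      exact hne (hu (MulAction.injective _ hh)).symm)
    refine ⟨l + l' + 1, (a p.1 * (a p.2)⁻¹) • t, ?_, ?_⟩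
    · simp only [List.length_cons]
      nlinarith
    · have h4 : ((p :: p' :: w).map (fun p => a p.1 * (a p.2)⁻¹)).prod • z =
          (a p.1 * (a p.2)⁻¹) • (((p' :: w).map (fun p => a p.1 * (a p.2)⁻¹)).prod • z) := by
        rw [List.map_cons, List.prod_cons, mul_smul]
      rw [h4]
      exact h3
end Action

/-! ### A closed non-backtracking walk contains a cycle -/

theorem NB.exists_fun {n : ℕ} {a b c d : V} (h : NB G n a b c d) :
    ∃ p : ℕ → V, p 0 = a ∧ p (n + 1) = d ∧ p n = c ∧ (∀ i ≤ n, G.Adj (p i) (p (i + 1))) ∧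
      (∀ i < n, p i ≠ p (i + 2)) := by
  induction h with
  | @base a b h =>
    refine ⟨fun i => if i = 0 then a else b, by simp, by simp, by simp, ?_, by simp⟩
    intro i hi
    obtain rfl : i = 0 := by omega
    simpa using h
  | @step n a b c d e h h' hne ih =>
    obtain ⟨p, h0, h1, h2, h3, h4⟩ := ih
    refine ⟨fun i => if i ≤ n + 1 then p i else e, by simp [h0], by simp, by simp [h1], ?_, ?_⟩
    · intro i hi
      by_cases hi' : i ≤ n
      · have : i ≤ n + 1 := by omega
        simp only [this, if_true, Nat.add_le_add_iff_right, hi']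
        exact h3 i hi'
      · obtain rfl : i = n + 1 := by omega
        simp only [le_refl, if_true, Nat.not_succ_le_self, if_false, h1]
        exact h'
    · intro i hi
      by_cases hi' : i < n
      · have h5 : i ≤ n + 1 := by omega
        have h6 : i + 2 ≤ n + 1 := by omega
        simp only [h5, h6, if_true]
        exact h4 i hi'
      · obtain rfl : i = n := by omega
        have h5 : i ≤ i + 1 := by omega
        have h6 : ¬ (i + 2 ≤ i + 1) := by omega
        simp only [h5, h6, if_true, if_false, h2]
        exact Ne.symm hne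

/-- The walk along a function. -/
def walkOf (p : ℕ → V) : (k i : ℕ) → (∀ j, i ≤ j → j < i + k → G.Adj (p j) (p (j + 1))) →
    G.Walk (p i) (p (i + k))
  | 0, _, _ => Walk.nil
  | (k + 1), i, h =>
    (Walk.cons (h i le_rfl (by omega)) (walkOf p k (i + 1) (fun j h1 h2 => h j (by omega) (by omega)))).copy
      rfl (by congr 1; omega)

theorem walkOf_length (p : ℕ → V) : ∀ (k i : ℕ)
    (h : ∀ j, i ≤ j → j < i + k → G.Adj (p j) (p (j + 1))),
    (walkOf (G := G) p k i h).length = k := by
  intro k
  induction k with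
  | zero => intro i h; rfl
  | succ k ih =>
    intro i h
    simp [walkOf, ih]

theorem walkOf_support (p : ℕ → V) : ∀ (k i : ℕ)
    (h : ∀ j, i ≤ j → j < i + k → G.Adj (p j) (p (j + 1))),
    (walkOf (G := G) p k i h).support = (List.range' i (k + 1)).map p := by
  intro k
  induction k with
  | zero => intro i h; simp [walkOf]
  | succ k ih =>
    intro i h
    rw [walkOf, Walk.support_copy, Walk.support_cons, ih]
    conv_rhs => rw [List.range'_succ, List.map_cons]

theorem length_of_edge_mem {x y : V} (W : G.Walk x y) (hW : W.IsPath) (hxy : x ≠ y)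
    (h : s(x, y) ∈ W.edges) : W.length = 1 := by
  cases W with
  | nil => exact absurd rfl hxy
  | @cons _ w _ hh q =>
    rw [Walk.cons_isPath_iff] at hW
    rw [Walk.edges_cons, List.mem_cons] at h
    rcases h with he | he
    · rw [Sym2.eq_iff] at he
      rcases he with ⟨_, he⟩ | ⟨he1, he2⟩
      · subst he
        have := Walk.length_eq_zero_iff.mpr (Walk.isPath_iff_nil.mp hW.1)
        rw [Walk.length_cons, this]
      · exact absurd he2.symm hxy
    · exact absurd (Walk.fst_mem_support_of_mem_edges _ he) hW.2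

theorem exists_cycle {n : ℕ} {a b c : V} (h : NB G n a b c a) :
    ∃ (v : V) (w : G.Walk v v), w.IsCycle ∧ w.length ≤ n + 1 := by
  classical
  obtain ⟨p, h0, h1, h2, h3, h4⟩ := h.exists_fun
  -- minimal repetition
  have hex : ∃ k, 0 < k ∧ ∃ i, i + k ≤ n + 1 ∧ p i = p (i + k) :=
    ⟨n + 1, by omega, 0, by omega, by rw [h0, Nat.zero_add, h1]⟩
  obtain ⟨hk0, i, hik, hpi⟩ := Nat.find_spec hex
  set k := Nat.find hex with hk
  have hmin : ∀ k' < k, 0 < k' → ∀ j, j + k' ≤ n + 1 → p j ≠ p (j + k') := by
    intro k' hk' h0' j hj hh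
    exact Nat.find_min hex hk' ⟨h0', j, hj, hh⟩
  have hk1 : k ≠ 1 := by
    intro hk1
    rw [hk1] at hpi hik
    exact (h3 i (by omega)).ne hpi
  have hk2 : k ≠ 2 := by
    intro hk2
    rw [hk2] at hpi hik
    exact h4 i (by omega) hpi
  obtain ⟨k', hk'⟩ : ∃ k', k = k' + 1 := ⟨k - 1, by omega⟩
  have hadj : ∀ j, i + 1 ≤ j → j < i + 1 + k' → G.Adj (p j) (p (j + 1)) := by
    intro j _ h2'
    exact h3 j (by omega)
  have hnodup : ((List.range' (i + 1) (k' + 1)).map p).Nodup := by
    refine List.Nodup.map_on ?_ List.nodup_range'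
    intro x hx y hy hxy
    simp only [List.mem_range'_1] at hx hy
    rcases lt_trichotomy x y with hlt | heq | hgt
    · exfalso
      exact hmin (y - x) (by omega) (by omega) x (by omega) (by
        rw [hxy]; congr 1; omega)
    · exact heq
    · exfalso
      exact hmin (x - y) (by omega) (by omega) y (by omega) (by
        rw [← hxy]; congr 1; omega)
  let W := walkOf (G := G) p k' (i + 1) hadj
  have hW : W.IsPath := by
    rw [Walk.isPath_def, walkOf_support]
    exact hnodup
  have hend : p (i + 1 + k') = p i := by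
    rw [hpi, hk']; congr 1; omega
  let W' : G.Walk (p (i + 1)) (p i) := W.copy rfl hend
  have hW' : W'.IsPath := by simpa [W'] using hW
  refine ⟨p i, Walk.cons (h3 i (by omega)) W', ?_, ?_⟩
  · rw [Walk.cons_isCycle_iff]
    refine ⟨hW', ?_⟩
    intro hedge
    -- the path W' has length k' ≥ 2
    have hlen : W'.length = k' := by simp [W', W, walkOf_length]
    -- the support of W' is p(i+1), p(i+2), ..., p(i+k); edges are consecutive
    have hedge' : s(p (i + 1), p i) ∈ W'.edges := by rwa [Sym2.eq_swap]
    have : W'.length = 1 := length_of_edge_mem W' hW' (h3 i (by omega)).ne.symm hedge'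
    omega
  · have hlen : W'.length = k' := by simp [W', W, walkOf_length]
    rw [Walk.length_cons, hlen]
    omega

end Pool.Agent.Helper61.Sym
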