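import Pool.Agent.Helper61.Sym.Basic

set_option autoImplicit false

namespace Pool.Agent.Helper61.Sym

open SimpleGraph Finset

variable {V : Type*} {G : SimpleGraph V}

section Count

variable [DecidableEq V] [DecidableRel G.Adj] {Q : Type*} [DecidableEq Q] (orb : V → Q)
  (U : Finset V)

/-- Neighbours of `z` in `U` different from `p`. -/
def nb (G : SimpleGraph V) [DecidableRel G.Adj] (U : Finset V) (p z : V) : Finset V :=
  (U.filter (fun u => G.Adj z u)).erase p

/-- The set of orbits reached by non-backtracking continuations of `p → z` inside `U`. -/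
def reach (G : SimpleGraph V) [DecidableRel G.Adj] : ℕ → V → V → Finset Q
  | 0, _, z => {orb z}
  | (s + 1), p, z => (nb G U p z).biUnion (fun u => reach G s z u)

theorem mem_reach {s : ℕ} : ∀ {p z : V}, G.Adj p z → ∀ {o : Q}, o ∈ reach orb U G s p z →
    ∃ c x, NB G s p z c x ∧ orb x = o := by
  induction s with
  | zero =>
    intro p z h o ho
    refine ⟨p, z, NB.base h, ?_⟩
    simpa [reach, eq_comm] using ho
  | succ s ih =>
    intro p z h o ho
    simp only [reach, mem_biUnion] at ho
    obtain ⟨u, hu, ho⟩ := ho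
    simp only [nb, mem_erase, mem_filter] at hu
    obtain ⟨c, x, hnb, hx⟩ := ih hu.2.2 ho
    refine ⟨c, x, ?_, hx⟩
    have := NB.trans (NB.base h) hnb hu.1
    simpa [Nat.add_comm] using this

theorem reach_card {q k r σ : ℕ} (Good : V → Finset V → Prop)
    (hT : ∀ z ∈ U, ∀ p, ∃ T ⊆ nb G U p z, Good z T ∧ k ≤ σ * T.card)
    (hsub : ∀ z T T', T' ⊆ T → Good z T → Good z T')
    (hno : ∀ z ∈ U, ∀ s < r, ∀ T : Finset V, T ⊆ U.filter (fun u => G.Adj z u) → Good z T →
      ∀ o : Q, (∀ u ∈ T, o ∈ reach orb U G s z u) → T.card ≤ q) :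
    ∀ s ≤ r, ∀ p z : V, z ∈ U → k ^ s ≤ (σ * q) ^ s * (reach orb U G s p z).card := by
  intro s
  induction s with
  | zero => intro _ p z _; simp [reach]
  | succ s ih =>
    intro hs p z hz
    obtain ⟨T, hTsub, hTgood, hTcard⟩ := hT z hz p
    have hdc : ∑ u ∈ T, (reach orb U G s z u).card ≤
        (reach orb U G (s + 1) p z).card * q := by
      have e1 : ∀ u ∈ T, (reach orb U G s z u).card =
          ((reach orb U G (s + 1) p z).filter (fun o => o ∈ reach orb U G s z u)).card := by
        intro u hu
        congr 1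
        ext o
        simp only [mem_filter, iff_and_self]
        intro ho
        simp only [reach, mem_biUnion]
        exact ⟨u, hTsub hu, ho⟩
      rw [Finset.sum_congr rfl e1]
      have e2 := Finset.sum_card_bipartiteAbove_eq_sum_card_bipartiteBelow
        (s := T) (t := reach orb U G (s + 1) p z)
        (fun u o => o ∈ reach orb U G s z u)
      simp only [Finset.bipartiteAbove, Finset.bipartiteBelow] at e2
      rw [e2]
      refine le_trans (Finset.sum_le_card_nsmul _ _ q ?_) (by simp)
      intro o _
      refine hno z hz s (by omega) _ ?_ (hsub z T _ (Finset.filter_subset _ _) hTgood) o ?_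
      · intro u hu
        have hu' := hTsub (Finset.mem_of_mem_filter u hu)
        simp only [mem_filter, nb, mem_erase] at hu' ⊢
        exact hu'.2
      · intro u hu
        simp only [mem_filter] at hu
        exact hu.2
    have h3 : T.card * k ^ s ≤ ∑ u ∈ T, (σ * q) ^ s * (reach orb U G s z u).card := by
      calc T.card * k ^ s = ∑ _u ∈ T, k ^ s := by simp
        _ ≤ _ := Finset.sum_le_sum (fun u hu => ih (by omega) z u (by
            have hu' := hTsub hu
            simp only [nb, mem_erase, mem_filter] at hu'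
            exact hu'.2.1))
    calc k ^ (s + 1) = k * k ^ s := by ring
      _ ≤ (σ * T.card) * k ^ s := Nat.mul_le_mul_right _ hTcard
      _ = σ * (T.card * k ^ s) := by ring
      _ ≤ σ * ∑ u ∈ T, (σ * q) ^ s * (reach orb U G s z u).card := Nat.mul_le_mul_left _ h3
      _ = σ * ((σ * q) ^ s * ∑ u ∈ T, (reach orb U G s z u).card) := by
          rw [← Finset.mul_sum (s := T)]
      _ ≤ σ * ((σ * q) ^ s * ((reach orb U G (s + 1) p z).card * q)) :=
          Nat.mul_le_mul_left _ (Nat.mul_le_mul_left _ hdc)
      _ = (σ * q) ^ (s + 1) * (reach orb U G (s + 1) p z).card := by ring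

end Count

theorem erase_sum [DecidableEq V] [DecidableRel G.Adj] (S : Finset V) {v : V} (hv : v ∈ S) :
    ∑ w ∈ S, (S.filter (fun u => G.Adj w u)).card =
      ∑ w ∈ S.erase v, ((S.erase v).filter (fun u => G.Adj w u)).card +
        2 * (S.filter (fun u => G.Adj v u)).card := by
  have h1 : ∀ w ∈ S.erase v, (S.filter (fun u => G.Adj w u)).card =
      ((S.erase v).filter (fun u => G.Adj w u)).card + (if G.Adj v w then 1 else 0) := by
    intro w hw
    rw [Finset.filter_erase]
    by_cases h : G.Adj v w
    · rw [if_pos h, Finset.card_erase_add_one]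
      simp [hv, h.symm]
    · rw [if_neg h, Finset.erase_eq_of_notMem, Nat.add_zero]
      simp only [mem_filter, not_and]
      intro _ h'
      exact h h'.symm
  rw [← Finset.add_sum_erase _ _ hv, Finset.sum_congr rfl h1, Finset.sum_add_distrib]
  have h2 : ∑ w ∈ S.erase v, (if G.Adj v w then 1 else 0) = (S.filter (fun u => G.Adj v u)).card := by
    rw [← Finset.card_filter, Finset.filter_erase, Finset.erase_eq_of_notMem]
    simp
  rw [h2]
  ring

/-- Existence of a large-minimum-degree vertex set. -/
theorem exists_core [Fintype V] [DecidableEq V] [DecidableRel G.Adj] (k : ℕ)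
    (hk : k * Fintype.card V < G.edgeFinset.card) :
    ∃ U : Finset V, U.Nonempty ∧ ∀ v ∈ U, k + 1 ≤ (U.filter (fun u => G.Adj v u)).card := by
  have hex : ∃ n, ∃ S : Finset V, S.card = n ∧
      2 * k * S.card < ∑ w ∈ S, (S.filter (fun u => G.Adj w u)).card := by
    refine ⟨_, Finset.univ, rfl, ?_⟩
    have h := G.sum_degrees_eq_twice_card_edges
    have h2 : ∀ w, (Finset.univ.filter (fun u => G.Adj w u)).card = G.degree w := by
      intro w
      rw [← SimpleGraph.card_neighborFinset_eq_degree, SimpleGraph.neighborFinset_eq_filter]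
    simp_rw [h2, h]
    rw [Finset.card_univ]
    nlinarith
  obtain ⟨S, hS, hlt⟩ := Nat.find_spec hex
  refine ⟨S, ?_, ?_⟩
  · rw [Finset.nonempty_iff_ne_empty]
    rintro rfl
    simp at hlt
  · intro v hv
    by_contra hcon
    push Not at hcon
    have hcard := Finset.card_erase_of_mem hv
    have hpos : 0 < S.card := Finset.card_pos.mpr ⟨v, hv⟩
    refine Nat.find_min hex (m := (S.erase v).card) (by rw [← hS]; omega) ⟨S.erase v, rfl, ?_⟩
    have h1 := erase_sum (G := G) S hv
    have h2 : S.card = (S.erase v).card + 1 := by omega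
    rw [h2] at hlt
    nlinarith


end Pool.Agent.Helper61.Sym
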