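import Pool.Agent.Helper61.Sym.Count

set_option autoImplicit false

namespace Pool.Agent.Helper61.Sym

open SimpleGraph Finset

/-- A large transversal of the orbits of the stabiliser of `z`. -/
theorem transversal {V Γ : Type*} [Group Γ] [MulAction Γ V] [Finite Γ] {σ : ℕ} (z : V)
    (hσ : Nat.card (MulAction.stabilizer Γ z) ≤ σ) (N : Finset V) :
    ∃ T ⊆ N, (∀ u ∈ T, ∀ u' ∈ T, u ≠ u' → ∀ g : Γ, g • z = z → g • u' ≠ u) ∧
      N.card ≤ σ * T.card := by
  classical
  let S := MulAction.stabilizer Γ z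
  let f : V → MulAction.orbitRel.Quotient S V := Quotient.mk''
  obtain ⟨T, hTN, hinj, himg⟩ := Finset.exists_subset_injOn_image_eq_of_surjOn (f := f) (N : Set V)
    (N.image f) (by
      intro y hy
      simp only [Finset.coe_image] at hy
      exact hy)
  have hTN' : T ⊆ N := by exact_mod_cast hTN
  refine ⟨T, hTN', ?_, ?_⟩
  · intro u hu u' hu' hne g hg h
    apply hne
    refine hinj hu hu' ?_
    refine Quotient.sound ?_
    exact ⟨⟨g, hg⟩, h⟩
  · have hcard : T.card = (N.image f).card := by
      rw [← himg, Finset.card_image_of_injOn hinj]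
    rw [hcard]
    refine Finset.card_le_mul_card_image N σ ?_
    intro b hb
    obtain ⟨v, hv, rfl⟩ := Finset.mem_image.mp hb
    have hfin : (MulAction.orbit S v).Finite := by
      have : MulAction.orbit S v = Set.range (fun g : S => g • v) := rfl
      rw [this]
      exact Set.finite_range _
    have h1 : {a ∈ N | f a = f v} ⊆ hfin.toFinset := by
      intro a ha
      simp only [mem_filter] at ha
      rw [Set.Finite.mem_toFinset]
      exact Quotient.exact ha.2
    refine (Finset.card_le_card h1).trans ?_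
    rw [← Set.ncard_eq_toFinset_card _ hfin]
    refine le_trans ?_ hσ
    have h2 : (MulAction.orbit S v).ncard ≤ Nat.card S := by
      have : MulAction.orbit S v = Set.range (fun g : S => g • v) := rfl
      rw [this, ← Set.image_univ, ← Set.ncard_univ]
      exact Set.ncard_image_le (Set.finite_univ)
    exact h2

/-- Counting orbits. -/
theorem orbit_count {V Γ : Type*} [Finite V] [Group Γ] [MulAction Γ V] [Finite Γ] {σ : ℕ}
    (hσ : ∀ z : V, Nat.card (MulAction.stabilizer Γ z) ≤ σ) :
    Nat.card (MulAction.orbitRel.Quotient Γ V) * Nat.card Γ ≤ σ * Nat.card V := by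
  classical
  have : Finite (MulAction.orbitRel.Quotient Γ V) := Quotient.finite _
  have : Fintype (MulAction.orbitRel.Quotient Γ V) := Fintype.ofFinite _
  have : Fintype V := Fintype.ofFinite _
  have h1 : Nat.card V = ∑ ω : MulAction.orbitRel.Quotient Γ V, Nat.card ω.orbit := by
    rw [Nat.card_congr (MulAction.selfEquivSigmaOrbits' Γ V), Nat.card_sigma]
  rw [h1, Finset.mul_sum, Nat.card_eq_fintype_card, ← Finset.card_univ, Finset.card_eq_sum_ones,
    Finset.sum_mul]
  refine Finset.sum_le_sum ?_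
  intro ω _
  rw [one_mul]
  have h2 : ω.orbit = MulAction.orbit Γ ω.out :=
    MulAction.orbitRel.Quotient.orbit_eq_orbit_out ω Quotient.out_eq'
  rw [h2]
  have := Fintype.ofFinite Γ
  have := Fintype.ofFinite (MulAction.orbit Γ ω.out)
  have := Fintype.ofFinite (MulAction.stabilizer Γ ω.out)
  have h3 := MulAction.card_orbit_mul_card_stabilizer_eq_card_group (G := Γ) (X := V) ω.out
  rw [Nat.card_eq_fintype_card, Nat.card_eq_fintype_card, ← h3, mul_comm]
  refine Nat.mul_le_mul_right _ ?_
  rw [← Nat.card_eq_fintype_card]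
  exact hσ _

/-- Main inequality. -/
theorem main {V : Type*} [Finite V] (G : SimpleGraph V) {Γ : Type*} [Group Γ] [Finite Γ]
    [MulAction Γ V]
    (haut : ∀ (g : Γ) (v w : V), G.Adj v w → G.Adj (g • v) (g • w))
    {σ : ℕ} (hσ : ∀ v : V, Nat.card (MulAction.stabilizer Γ v) ≤ σ)
    {q : ℕ} (w : List (Fin q × Fin q)) (hw : w ≠ [])
    (halt : ∀ p ∈ w, p.1 ≠ p.2) (hchain : w.IsChain (fun p p' => p.2 ≠ p'.1))
    (hlaw : ∀ x : Fin q → Γ, (w.map (fun p => x p.1 * (x p.2)⁻¹)).prod = 1)
    {m : ℕ} (hgirth : ((2 * m : ℕ) : ℕ∞) < G.egirth)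
    {k : ℕ} (hk : k * Nat.card V < G.edgeSet.ncard) :
    k ^ (m / w.length) * Nat.card Γ ≤ (σ * (q - 1)) ^ (m / w.length) * (σ * Nat.card V) := by
  classical
  have : Fintype V := Fintype.ofFinite V
  have hk' : k * Fintype.card V < G.edgeFinset.card := by
    rw [Nat.card_eq_fintype_card] at hk
    rw [← SimpleGraph.coe_edgeFinset, Set.ncard_coe_finset] at hk
    exact hk
  obtain ⟨U, hUne, hU⟩ := exists_core k hk'
  obtain ⟨z0, hz0⟩ := hUne
  -- the orbit map
  let Q := MulAction.orbitRel.Quotient Γ V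
  let orb : V → Q := Quotient.mk''
  have : Finite Q := Quotient.finite _
  have : Fintype Q := Fintype.ofFinite Q
  have hLpos : 0 < w.length := List.length_pos_iff.mpr hw
  let Good : V → Finset V → Prop := fun z T =>
    ∀ u ∈ T, ∀ u' ∈ T, u ≠ u' → ∀ g : Γ, g • z = z → g • u' ≠ u
  have hT : ∀ z ∈ U, ∀ p, ∃ T ⊆ nb G U p z, Good z T ∧ k ≤ σ * T.card := by
    intro z hz p
    have h1 : k ≤ (nb G U p z).card := by
      have := hU z hz
      have h2 := Finset.pred_card_le_card_erase (s := U.filter (fun u => G.Adj z u)) (a := p)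
      unfold nb
      omega
    obtain ⟨T, hTN, hgood, hcard⟩ := transversal (Γ := Γ) z (hσ z) (nb G U p z)
    exact ⟨T, hTN, hgood, h1.trans hcard⟩
  have hsub : ∀ z T T', T' ⊆ T → Good z T → Good z T' := by
    intro z T T' hTT' hg u hu u' hu'
    exact hg u (hTT' hu) u' (hTT' hu')
  have hno : ∀ z ∈ U, ∀ s < m / w.length, ∀ T : Finset V, T ⊆ U.filter (fun u => G.Adj z u) →
      Good z T → ∀ o : Q, (∀ u ∈ T, o ∈ reach orb U G s z u) → T.card ≤ q - 1 := by
    intro z hz s hs T hT hgood o ho
    by_contra hcon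
    have hcard : q ≤ T.card := by omega
    obtain ⟨T', hT', hT'c⟩ := Finset.exists_subset_card_eq hcard
    let e := (Finset.equivFinOfCardEq hT'c).symm
    let u : Fin q → V := fun i => (e i : V)
    have hu : Function.Injective u := fun i j hij => e.injective (Subtype.ext hij)
    have huT : ∀ i, u i ∈ T := fun i => hT' (e i).2
    have hadj : ∀ i, G.Adj z (u i) := by
      intro i
      have := hT (huT i)
      simp only [mem_filter] at this
      exact this.2
    have hreach : ∀ i, ∃ c x, NB G s z (u i) c x ∧ orb x = o :=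
      fun i => mem_reach orb U (hadj i) (ho _ (huT i))
    choose c x hnb hx using hreach
    obtain ⟨x0, hx0⟩ := Quotient.exists_rep o
    have hex : ∀ i, ∃ g : Γ, g • x0 = x i := by
      intro i
      have h1 : orb (x i) = orb x0 := by rw [hx i, ← hx0]
      have h2 := Quotient.exact h1
      exact h2
    choose a ha using hex
    have hblock : ∀ i j : Fin q, i ≠ j →
        ∃ l, l ≤ 2 * s + 1 ∧ NB G l z (u i) ((a i * (a j)⁻¹) • u j) ((a i * (a j)⁻¹) • z) := by
      intro i j hij
      refine block haut (a i * (a j)⁻¹)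
        (fun h => hgood (u i) (huT i) (u j) (huT j) (fun h' => hij (hu h')) _ h) (hnb i) (hnb j) ?_
      rw [← ha i, ← ha j, mul_smul, inv_smul_smul]
    obtain ⟨p, w', rfl⟩ := List.exists_cons_of_ne_nil hw
    obtain ⟨l, t, hl, hnbl⟩ := word haut u hu a z s hblock w' p halt hchain
    rw [hlaw a, one_smul] at hnbl
    obtain ⟨v, W, hW, hWl⟩ := exists_cycle hnbl
    have h1 : G.egirth ≤ W.length := egirth_le_length hW
    have h2 : l + 1 ≤ 2 * m := by
      have h3 : (s + 1) * (w'.length + 1) ≤ m := by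
        have h4 : s + 1 ≤ m / (p :: w').length := hs
        rw [Nat.le_div_iff_mul_le (by simp)] at h4
        simpa using h4
      calc l + 1 ≤ (2 * s + 2) * (w'.length + 1) := hl
        _ = 2 * ((s + 1) * (w'.length + 1)) := by ring
        _ ≤ 2 * m := Nat.mul_le_mul_left _ h3
    have h5 : G.egirth ≤ ((2 * m : ℕ) : ℕ∞) := by
      refine le_trans h1 ?_
      exact_mod_cast le_trans hWl h2
    exact absurd hgirth (not_lt.mpr h5)
  have h1 := reach_card orb U Good hT hsub hno (m / w.length) le_rfl z0 z0 hz0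
  have h2 : (reach orb U G (m / w.length) z0 z0).card ≤ Nat.card Q := by
    rw [Nat.card_eq_fintype_card]
    exact Finset.card_le_univ _
  have h3 : Nat.card Q * Nat.card Γ ≤ σ * Nat.card V := orbit_count hσ
  calc k ^ (m / w.length) * Nat.card Γ
      ≤ ((σ * (q - 1)) ^ (m / w.length) * (reach orb U G (m / w.length) z0 z0).card) *
          Nat.card Γ := Nat.mul_le_mul_right _ h1
    _ ≤ ((σ * (q - 1)) ^ (m / w.length) * Nat.card Q) * Nat.card Γ :=
        Nat.mul_le_mul_right _ (Nat.mul_le_mul_left _ h2)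
    _ = (σ * (q - 1)) ^ (m / w.length) * (Nat.card Q * Nat.card Γ) := by rw [mul_assoc]
    _ ≤ _ := Nat.mul_le_mul_left _ h3

end Pool.Agent.Helper61.Sym
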